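import Pool.Agent.K7.H13.CL.Fin

/-!
# Zero-cycles of degree one on 100% of the cubic surfaces and cubic hypersurfaces over `F_q(t)`

Let `F` be a finite field (of any characteristic, also `2` and `3`) and `n ≥ 3`. Among the smooth cubic
hypersurfaces `f = 0` in `ℙⁿ` over `F(t)`, with cubic forms `f` over `F[t]` with coefficients of degree
`< A`, which have zero-cycles of degree one over all the completions of `F(t)`, a proportion tending to
`1` as `A → ∞` has a rational point, in particular a zero-cycle of degree one over `F(t)`.
-/

set_option autoImplicit false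

namespace Pool.Agent.Results.MP_1ad228_nt.CubicFunctionField

open Polynomial IsDedekindDomain

/-- The cubic forms in `n + 1` variables over `F[t]` all of whose coefficients have degree less
than `A`. -/
def Forms (F : Type) [Field F] (n A : ℕ) : Set (MvPolynomial (Fin (n + 1)) F[X]) :=
  {f | f.IsHomogeneous 3 ∧ ∀ m, (f.coeff m).degree < A}

/-- The hypersurface `f = 0` in `ℙⁿ` over `F(t)` is smooth: there is no point over a field containing
`F[t]` at which `f` and all its partial derivatives vanish. -/
def Smooth {F : Type} [Field F] {n : ℕ} (f : MvPolynomial (Fin (n + 1)) F[X]) : Prop :=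
  ∀ (K : Type) [Field K] [Algebra F[X] K], Function.Injective (algebraMap F[X] K) →
    ∀ x : Fin (n + 1) → K, x ≠ 0 → MvPolynomial.aeval x f = 0 →
      ∃ i, MvPolynomial.aeval x (MvPolynomial.pderiv i f) ≠ 0

/-- The hypersurface `f = 0` in `ℙⁿ` has a point over `F(t)`. -/
def HasRationalPoint {F : Type} [Field F] {n : ℕ} (f : MvPolynomial (Fin (n + 1)) F[X]) : Prop :=
  ∃ x : Fin (n + 1) → RatFunc F, x ≠ 0 ∧ MvPolynomial.aeval x f = 0

/-- The hypersurface `f = 0` in `ℙⁿ` has a zero-cycle of degree one over the field `K`, in which the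
coefficients of `f` are embedded by `φ`: there are finitely many finite extensions `L i` of `K` over
which it has a point, and integers `m i` with `∑ m i * [L i : K] = 1`. (A point over `L i` is a closed
point together with an embedding of its residue field in `L i`, so this says that the degrees of the
closed points have greatest common divisor one.) -/
def HasZeroCycleOfDegreeOne {F : Type} [Field F] {n : ℕ} (f : MvPolynomial (Fin (n + 1)) F[X])
    (K : Type) [Field K] (φ : F[X] →+* K) : Prop :=
  ∃ (t : ℕ) (L : Fin t → Type) (_ : ∀ i, Field (L i)) (_ : ∀ i, Algebra K (L i)) (m : Fin t → ℤ),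
    (∀ i, FiniteDimensional K (L i)) ∧
    (∀ i, ∃ x : Fin (n + 1) → L i, x ≠ 0 ∧
      MvPolynomial.eval₂ ((algebraMap K (L i)).comp φ) x f = 0) ∧
    ∑ i, m i * (Module.finrank K (L i) : ℤ) = 1

/-- The embedding of `F[t]` in the completion `F((u))`, `u = 1 / t`, of `F(t)` at infinity:
`t` goes to the inverse of `u`. -/
noncomputable def toInfty (F : Type) [Field F] : F[X] →+* LaurentSeries F :=
  (Polynomial.aeval (HahnSeries.single (-1 : ℤ) (1 : F)) : F[X] →ₐ[F] LaurentSeries F).toRingHom

/-- The hypersurface `f = 0` has zero-cycles of degree one over the completion of `F(t)` at every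
place: at every maximal ideal `v` of `F[t]`, and at infinity. -/
def HasLocalZeroCycles {F : Type} [Field F] {n : ℕ} (f : MvPolynomial (Fin (n + 1)) F[X]) : Prop :=
  (∀ v : HeightOneSpectrum F[X], HasZeroCycleOfDegreeOne f (v.adicCompletion (RatFunc F))
    (algebraMap F[X] (v.adicCompletion (RatFunc F)))) ∧
  HasZeroCycleOfDegreeOne f (LaurentSeries F) (toInfty F)

/-- For every finite field `F` and every `n ≥ 3`, 100% of the smooth cubic hypersurfaces in `ℙⁿ` over
`F(t)`, ordered by height, which have zero-cycles of degree one over all the completions of `F(t)` have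
a rational point; the smooth ones with a rational point are a positive proportion of all cubic
hypersurfaces. -/
theorem result (F : Type) [Field F] [Finite F] (n : ℕ) (hn : 3 ≤ n) :
    Filter.Tendsto (fun A : ℕ =>
      (({f ∈ Forms F n A | Smooth f ∧ HasRationalPoint f} : Set _).ncard : ℝ) /
      (({f ∈ Forms F n A | Smooth f ∧ HasLocalZeroCycles f} : Set _).ncard : ℝ))
      Filter.atTop (nhds 1) ∧
    ∃ c : ℝ, 0 < c ∧ ∀ᶠ A : ℕ in Filter.atTop, c * ((Forms F n A).ncard : ℝ) ≤
      (({f ∈ Forms F n A | Smooth f ∧ HasRationalPoint f} : Set _).ncard : ℝ) :=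
  Pool.Agent.K7.H13.CL.main n hn

end Pool.Agent.Results.MP_1ad228_nt.CubicFunctionField
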