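import Pool.Agent.K7.H13.ZC.Fix

/-!
# Zero-cycles of degree one on 100% of the cubic hypersurfaces `F(x) = Q(w)`, `Q` fixed

Let `n ≥ 3`, let `Q` be a fixed cubic form with integral coefficients in `r` variables such that
`Q = 0` is smooth (for example `Q = a w³`, a binary cubic form of discriminant `≠ 0`, or the sum of
the cubes), and let `F` be a random cubic form in `x_0, …, x_n` with integral coefficients of absolute
value at most `H`. Let `X_F` be the cubic hypersurface `F(x) = Q(w)` in `ℙ^(n + r)`; these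
hypersurfaces are a thin subset of all cubic hypersurfaces in `ℙ^(n + r)`.

Among the `F` for which `X_F` is smooth and has zero-cycles of degree one over the real numbers and
over all the `p`-adic fields, a proportion tending to `1` as `H → ∞` has the property that `X_F` has
a rational point; they are a positive proportion of all `F`.
-/

set_option autoImplicit false

namespace Pool.Agent.Results.MP_1ad228_nt.FixedCubicPlusRandomCubic

open Filter Topology MvPolynomial

/-- The cubic forms in `n + 1` variables whose coefficients are integers of absolute value at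
most `H`. -/
def Forms (n H : ℕ) : Set (MvPolynomial (Fin (n + 1)) ℤ) :=
  {F | F.IsHomogeneous 3 ∧ ∀ a, |F.coeff a| ≤ (H : ℤ)}

/-- The projective hypersurface `G = 0` is smooth: there is no point over a field of characteristic
zero at which `G` and all its partial derivatives vanish. -/
def Smooth {σ : Type} (G : MvPolynomial σ ℤ) : Prop :=
  ∀ (K : Type) [Field K] [CharZero K] (y : σ → K), y ≠ 0 → aeval y G = 0 →
    ∃ i, aeval y (pderiv i G) ≠ 0

/-- The projective hypersurface `G = 0` has a rational point. -/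
def HasRationalPoint {σ : Type} (G : MvPolynomial σ ℤ) : Prop :=
  ∃ y : σ → ℚ, y ≠ 0 ∧ aeval y G = 0

/-- The projective hypersurface `G = 0` has a zero-cycle of degree one over the field `K`: there are
finitely many finite extensions `L i` of `K` over which it has a point, and integers `m i` with
`∑ m i * [L i : K] = 1`. (A point over `L i` is a closed point together with an embedding of its
residue field in `L i`, so this says that the degrees of the closed points have greatest common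
divisor one.) -/
def HasZeroCycleOfDegreeOne {σ : Type} (G : MvPolynomial σ ℤ) (K : Type) [Field K] : Prop :=
  ∃ (t : ℕ) (L : Fin t → Type) (_ : ∀ i, Field (L i)) (_ : ∀ i, Algebra K (L i)) (m : Fin t → ℤ),
    (∀ i, FiniteDimensional K (L i)) ∧
    (∀ i, ∃ y : σ → L i, y ≠ 0 ∧ aeval y G = 0) ∧
    ∑ i, m i * (Module.finrank K (L i) : ℤ) = 1

/-- The projective hypersurface `G = 0` has zero-cycles of degree one over the real numbers and over
all the `p`-adic fields. -/
def HasLocalZeroCyclesOfDegreeOne {σ : Type} (G : MvPolynomial σ ℤ) : Prop :=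
  HasZeroCycleOfDegreeOne G ℝ ∧ ∀ (p : ℕ) [Fact p.Prime], HasZeroCycleOfDegreeOne G ℚ_[p]

/-- The cubic form `F(x) - Q(w)` in the `n + 1 + r` variables `x_0, …, x_n, w_1, …, w_r`, that is the
equation of the hypersurface `X_F`. -/
noncomputable def equation {n r : ℕ} (F : MvPolynomial (Fin (n + 1)) ℤ)
    (Q : MvPolynomial (Fin r) ℤ) : MvPolynomial (Fin (n + 1) ⊕ Fin r) ℤ :=
  rename Sum.inl F - rename Sum.inr Q

theorem ncard_iff {n H : ℕ} {e : Fin 1 → ℕ} (he : ∀ j, e j + 2 = 3 * (0 + 1))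
    (P : (Fin 1 → MvPolynomial (Fin (n + 1)) ℤ) → Prop)
    (P' : MvPolynomial (Fin (n + 1)) ℤ → Prop)
    (hP : ∀ F : MvPolynomial (Fin (n + 1)) ℤ, F.IsHomogeneous 3 → (P (fun _ => F) ↔ P' F)) :
    ({f : Fin 1 → MvPolynomial (Fin (n + 1)) ℤ | (∀ j, (f j).IsHomogeneous (e j + 2) ∧
      ∀ a, |(f j).coeff a| ≤ (H : ℤ)) ∧ P f} : Set _).ncard =
    ({F | F ∈ Forms n H ∧ P' F} : Set _).ncard := by
  have hinj : Function.Injective (fun F : MvPolynomial (Fin (n + 1)) ℤ => fun _ : Fin 1 => F) :=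
    fun F F' h => congrFun h 0
  rw [← Set.ncard_image_of_injective _ hinj]
  congr 1
  ext f
  simp only [Set.mem_ofPred_eq, Set.mem_image, Forms]
  constructor
  · rintro ⟨h1, h2⟩
    have h3 : (f 0).IsHomogeneous 3 := by
      have := (h1 0).1
      rwa [he 0] at this
    have h4 : f = fun _ => f 0 := by
      funext j
      rw [Subsingleton.elim j 0]
    refine ⟨f 0, ⟨⟨h3, (h1 0).2⟩, (hP _ h3).mp (h4 ▸ h2)⟩, h4.symm⟩
  · rintro ⟨F, ⟨⟨h1, h2⟩, h3⟩, rfl⟩
    refine ⟨fun j => ⟨?_, h2⟩, (hP _ h1).mpr h3⟩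
    rw [he j]
    exact h1

/-- Let `n ≥ 3` and let `Q` be a fixed smooth cubic form. Then 100% of the cubic forms `F` in `n + 1`
variables, ordered by height, for which the cubic hypersurface `F(x) = Q(w)` is smooth and has
zero-cycles of degree one over the real numbers and over all the `p`-adic fields, are such that it
has a rational point; and those with a rational point are a positive proportion of all `F`. -/
theorem result (n r : ℕ) (hn : 3 ≤ n) (Q : MvPolynomial (Fin r) ℤ) (hQ : Q.IsHomogeneous 3)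
    (hQs : Smooth Q) :
    (∃ c : ℝ, 0 < c ∧ ∀ᶠ H : ℕ in atTop, c * ((Forms n H).ncard : ℝ) ≤
      (({F | F ∈ Forms n H ∧ Smooth (equation F Q) ∧ HasRationalPoint (equation F Q)} :
        Set _).ncard : ℝ)) ∧
    Tendsto (fun H : ℕ =>
      (({F | F ∈ Forms n H ∧ Smooth (equation F Q) ∧ HasRationalPoint (equation F Q)} :
        Set _).ncard : ℝ) /
      (({F | F ∈ Forms n H ∧ Smooth (equation F Q) ∧
        HasLocalZeroCyclesOfDegreeOne (equation F Q)} : Set _).ncard : ℝ))
      atTop (𝓝 1) := by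
  obtain ⟨e, he⟩ : ∃ e : Fin 1 → ℕ, ∀ j, e j + 2 = 3 * (0 + 1) :=
    ⟨fun _ => 1, fun j => rfl⟩
  have hdeg : ∑ j, (e j + 2) ≤ n := by
    rw [Fin.sum_univ_one, he 0]
    omega
  obtain ⟨h1, h2⟩ := Pool.Agent.Y716.D.dims le_rfl hn hdeg
  have hmain := Pool.Agent.R465.QV.hp_formQ (Fin (n + 1)) (m := 3) (κ := 0) (by norm_num) hQ
    (by rw [Fintype.card_fin]; omega) he
    (Pool.Agent.Y716.D.class_all (Fin (n + 1)) le_rfl h1 e h2)
    (Pool.Agent.Y232.CS.bad_int (Fin (n + 1)) e) (Pool.Agent.Y407.C4.bad_real (Fin (n + 1)) e)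
    (Pool.Agent.Y716.D.pos_all (Fin (n + 1)) le_rfl h1 e h2)
  obtain ⟨⟨c, hc, h3⟩, h4⟩ := hmain
  have hsm : ∀ F : MvPolynomial (Fin (n + 1)) ℤ, F.IsHomogeneous 3 →
      (Pool.Agent.Y697.C13.SmoothS (fun _ : Fin 1 => F) ↔ Smooth (equation F Q)) := by
    intro F hF
    refine Iff.trans ?_ (Pool.Agent.K7.H13.ZC.smooth_diff hF hQ hQs).symm
    constructor
    · intro h K _ _ x hx hF0
      obtain ⟨i, hi⟩ := h K x (fun _ => 1) hx (fun h0 => one_ne_zero (congrFun h0 0)) fun _ => hF0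
      refine ⟨i, ?_⟩
      rwa [Fin.sum_univ_one, one_mul] at hi
    · intro h K _ _ x l hx hl hF0
      obtain ⟨i, hi⟩ := h K x hx (hF0 0)
      refine ⟨i, ?_⟩
      rw [Fin.sum_univ_one]
      refine mul_ne_zero (fun h0 => hl ?_) hi
      funext j
      rw [Subsingleton.elim j 0]
      exact h0
  have e1 : ∀ H : ℕ, ({f : Fin 1 → MvPolynomial (Fin (n + 1)) ℤ |
      (∀ j, (f j).IsHomogeneous (e j + 2) ∧ ∀ a, |(f j).coeff a| ≤ (H : ℤ)) ∧
      Pool.Agent.Y697.C13.SmoothS f ∧ Pool.Agent.R465.QV.ElsQ Q f} : Set _).ncard =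
      ({F | F ∈ Forms n H ∧ Smooth (equation F Q) ∧
        HasLocalZeroCyclesOfDegreeOne (equation F Q)} : Set _).ncard := by
    intro H
    refine ncard_iff he (fun f => Pool.Agent.Y697.C13.SmoothS f ∧ Pool.Agent.R465.QV.ElsQ Q f)
      (fun F => Smooth (equation F Q) ∧ HasLocalZeroCyclesOfDegreeOne (equation F Q))
      fun F hF => ?_
    exact and_congr (hsm F hF) (Pool.Agent.K7.H13.ZC.els_iff (by rw [Fintype.card_fin]; omega)
      hF hQ hQs).symm
  have e2 : ∀ H : ℕ, ({f : Fin 1 → MvPolynomial (Fin (n + 1)) ℤ |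
      (∀ j, (f j).IsHomogeneous (e j + 2) ∧ ∀ a, |(f j).coeff a| ≤ (H : ℤ)) ∧
      Pool.Agent.Y697.C13.SmoothS f ∧ Pool.Agent.R465.QV.PtQ Q (f 0) ℚ} : Set _).ncard =
      ({F | F ∈ Forms n H ∧ Smooth (equation F Q) ∧ Pool.Agent.R465.QV.PtQ Q F ℚ} :
        Set _).ncard := by
    intro H
    refine ncard_iff he (fun f => Pool.Agent.Y697.C13.SmoothS f ∧
      Pool.Agent.R465.QV.PtQ Q (f 0) ℚ) (fun F => Smooth (equation F Q) ∧
      Pool.Agent.R465.QV.PtQ Q F ℚ) fun F hF => ?_
    exact and_congr (hsm F hF) Iff.rfl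
  have e3 : ∀ H : ℕ, ({f : Fin 1 → MvPolynomial (Fin (n + 1)) ℤ |
      (∀ j, (f j).IsHomogeneous (e j + 2) ∧ ∀ a, |(f j).coeff a| ≤ (H : ℤ)) ∧
      True} : Set _).ncard = (Forms n H).ncard := by
    intro H
    rw [ncard_iff he (fun _ => True) (fun _ => True) (fun _ _ => Iff.rfl)]
    congr 1
    ext F
    simp
  have hfin : ∀ H : ℕ, (Forms n H).Finite := by
    intro H
    refine ((Pool.Agent.Y716.C.sysZ (Fin (n + 1)) e (H : ℝ)).finite_toSet.image
      (fun f => f 0)).subset ?_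
    rintro F ⟨hF1, hF2⟩
    refine ⟨fun _ => F, ?_, rfl⟩
    rw [Finset.mem_coe, Pool.Agent.Y716.C.mem_sysZ]
    intro j
    refine ⟨by rw [he j]; exact hF1, fun a => ?_⟩
    have := hF2 a
    rw [← Int.cast_abs]
    exact_mod_cast this
  have hmono : ∀ (H : ℕ) (P P' : MvPolynomial (Fin (n + 1)) ℤ → Prop), (∀ F, P F → P' F) →
      (({F | F ∈ Forms n H ∧ P F} : Set _).ncard : ℝ) ≤
      (({F | F ∈ Forms n H ∧ P' F} : Set _).ncard : ℝ) := by
    intro H P P' h
    have h5 : ({F | F ∈ Forms n H ∧ P F} : Set _) ⊆ {F | F ∈ Forms n H ∧ P' F} :=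
      fun F hF => ⟨hF.1, h F hF.2⟩
    have h6 : ({F | F ∈ Forms n H ∧ P' F} : Set _).Finite := (hfin H).subset fun F hF => hF.1
    exact_mod_cast Set.ncard_le_ncard h5 h6
  have hab : ∀ H : ℕ, (({F | F ∈ Forms n H ∧ Smooth (equation F Q) ∧
      Pool.Agent.R465.QV.PtQ Q F ℚ} : Set _).ncard : ℝ) ≤
      (({F | F ∈ Forms n H ∧ Smooth (equation F Q) ∧ HasRationalPoint (equation F Q)} :
        Set _).ncard : ℝ) := fun H => hmono H _ _ fun F hF =>
    ⟨hF.1, Pool.Agent.K7.H13.ZC.ratPt_of_PtQ hF.2⟩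
  have hbb : ∀ H : ℕ, (({F | F ∈ Forms n H ∧ Smooth (equation F Q) ∧
      HasRationalPoint (equation F Q)} : Set _).ncard : ℝ) ≤
      (({F | F ∈ Forms n H ∧ Smooth (equation F Q) ∧
        HasLocalZeroCyclesOfDegreeOne (equation F Q)} : Set _).ncard : ℝ) := fun H =>
    hmono H _ _ fun F hF => ⟨hF.1,
      Pool.Agent.K7.H13.ZC.hasZC_of_pt (Pool.Agent.K7.H13.ZC.pt_cast ℝ hF.2),
      fun p _ => Pool.Agent.K7.H13.ZC.hasZC_of_pt (Pool.Agent.K7.H13.ZC.pt_cast ℚ_[p] hF.2)⟩
  simp only [e1, e2, e3] at h3 h4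
  constructor
  · refine ⟨c / 2, by positivity, ?_⟩
    filter_upwards [h3, h4.eventually (lt_mem_nhds (by norm_num : (1 / 2 : ℝ) < 1))] with H h5 h6
    have h7 : (0 : ℝ) ≤ (({F | F ∈ Forms n H ∧ Smooth (equation F Q) ∧
        HasLocalZeroCyclesOfDegreeOne (equation F Q)} : Set _).ncard : ℝ) := Nat.cast_nonneg _
    rcases h7.eq_or_lt with h8 | h8
    · rw [← h8, div_zero] at h6
      norm_num at h6
    · rw [lt_div_iff₀ h8] at h6
      have := hab H
      linarith
  · refine tendsto_of_tendsto_of_tendsto_of_le_of_le h4 tendsto_const_nhds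
      (fun H => div_le_div_of_nonneg_right (hab H) (Nat.cast_nonneg _))
      (fun H => div_le_one_of_le₀ (hbb H) (Nat.cast_nonneg _))

end Pool.Agent.Results.MP_1ad228_nt.FixedCubicPlusRandomCubic
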