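import Pool.Agent.H76.BKT.TorsLoc
import Pool.Agent.H76.BKT.TrU
import Pool.Agent.K7.H56.U2.H

/-!
# Zero-cycles on torsors under the abelian varieties `E ⊗ R`, for `E : y² + y = x³`

Let `F/K` be a Galois extension of number fields and `R` ANY representation of `Gal(F/K)` on `ℤ^d`.  Let
`A = E ⊗ R` be the abelian variety over `K` of dimension `d` which is obtained from `E^d` by twisting
with `R`: `A(K̄) = E(K̄)^d` with the Galois action `σ(a)_i = ∑ R(σ)_ik σ(a_k)`.  (For example, `E` and its
quadratic twists, the products and the Weil restrictions of such curves, the twists of `E^2` by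
quartic dihedral characters, …)  Let `X` be ANY torsor under `A` over `K`, of any period.  We prove, for
the fields `F` described below, and all their subfields `K` with `F/K` Galois: if `X` has zero-cycles of
degree one over all the completions of `K`, then

* `X` has a closed point of ODD degree: the index of `X` is odd;
* if `X` has a zero-cycle whose degree is a power of two, then `X` has a rational point.

So the `2`-primary part of Question 1 holds for all these torsors, and Question 1 holds for those torsors
whose period (or index) is a power of two; there is no Brauer–Manin obstruction.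

The fields `F`.  Let `C` be `ℚ(√-3)` or `ℚ(ζ₉)`, let `L/C` be a Galois extension of 2-power degree in
which, above the primes other than three, only primes ramify modulo which two is not a cube (`GoodRam`),
and let `M` be any subfield of `L` (for example `M = ℚ`).  Then `F` is any field of odd discriminant,
between `M` and a Galois extension of `M` of 2-power degree, such that no prime of `M`, not above three,
modulo which two is a cube, is ramified in `F` (`BadPrime`).  For example, `F` is any Galois 2-extension of
`ℚ` of odd discriminant in which no prime number `p ≡ 2 mod 3` and no prime number `p = x² + 27 y²`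
ramifies.

The torsor `X` is given by the set `X(K̄)`, on which the group `A(K̄)` acts simply transitively, with the
continuous action of the absolute Galois group which is compatible with it; by Galois descent this is
the same as a torsor (a smooth projective variety) over `K`.  Its closed points are the orbits of the
Galois group on `X(K̄)`, and their degrees are the numbers of elements of the orbits.  If `ι : K̄ → K̄_v`
is an embedding over `K` and `x ∈ X(K̄)`, then the points of `X` over `K̄_v` are `Q + x` for
`Q ∈ A(K̄_v)`, and the action of the Galois group of `K_v` on them is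
`τ (Q + x) = τ Q + σ x = (τ Q + ι(σ x - x)) + x`, where `σ` is the restriction of `τ` to `K̄`.

The finiteness of the Tate–Shafarevich groups of these abelian varieties is known only if `F(√-3)` is
abelian over `ℚ(√-3)` (Rubin) and in few other cases; in general it is only known that the
`2`-primary part of the Tate–Shafarevich group of `E` over `F` is trivial.

Proof.  The 2-Selmer group of `E` over `F` is trivial (`FormulaModTwoTowers` for `MP_f50388_nt`,
helper56).  New here: the descent to the twists, over all the subfields `K` with `F/K` Galois, of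
cocycles with values in the whole group `A(K̄)`; the passage from local zero-cycles to local points, and
the construction of a closed point of odd degree out of the class of odd order.
-/

set_option autoImplicit false

open NumberField IsDedekindDomain WeierstrassCurve
open scoped Classical

namespace Pool.Agent.Results.MP_1ad228_nt.TorsorsOddDegree

/-- Above the prime numbers other than three, only primes modulo which `2` is not a cube ramify in
`L/C`: if `σ ≠ 1` lies in the inertia group of the prime `w` of `L`, and `w` does not divide three, then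
`2` is not a cube modulo the prime of `C` below `w`. -/
def GoodRam (C L : Type) [Field C] [NumberField C] [Field L] [NumberField L] [Algebra C L] : Prop :=
  ∀ (w : HeightOneSpectrum (𝓞 L)) (σ : Gal(L/C)), (3 : 𝓞 L) ∉ w.asIdeal →
    (∀ x : 𝓞 L, σ • x - x ∈ w.asIdeal) → σ ≠ 1 → ∀ α : 𝓞 C, α ^ 3 - 2 ∉ w.asIdeal.under (𝓞 C)

/-- A prime `w` of `M`, not above three, modulo which two is a cube, is ramified in `F`: there is a
prime `w'` of `F` with `w 𝓞_F ⊆ w'²`. -/
def BadPrime (M F : Type) [Field M] [NumberField M] [Field F] [NumberField F] [Algebra M F] : Prop :=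
  ∃ (w : HeightOneSpectrum (𝓞 M)) (w' : HeightOneSpectrum (𝓞 F)),
    (3 : 𝓞 M) ∉ w.asIdeal ∧ (∃ x : 𝓞 M, x ^ 3 - 2 ∈ w.asIdeal) ∧
    w.asIdeal.map (algebraMap (𝓞 M) (𝓞 F)) ≤ w'.asIdeal ^ 2

section defs

/-- The curve `E : y² + y = x³` over `K`. -/
def E (K : Type) [Field K] : WeierstrassCurve K := ⟨0, 0, 1, 0, 0⟩

/-- The absolute Galois group of `K`, with the Krull topology. -/
abbrev AbsGal (K : Type) [Field K] : Type := AlgebraicClosure K ≃ₐ[K] AlgebraicClosure K

/-- The group `E(L)`, for a field `L ⊇ K`. -/
def Pt (K L : Type) [Field K] [Field L] [Algebra K L] : Type := ((E K).baseChange L).toAffine.Point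

/-- The group law on `E(L)`. -/
noncomputable instance instPt (K L : Type) [Field K] [Field L] [Algebra K L] :
    AddCommGroup (Pt K L) :=
  @Affine.Point.instAddCommGroup L _ ((E K).baseChange L).toAffine (Classical.decEq L)

/-- The map on points given by a homomorphism of fields. -/
noncomputable def act {K L L' : Type} [Field K] [Field L] [Field L'] [Algebra K L] [Algebra K L']
    (φ : L →ₐ[K] L') : Pt K L →+ Pt K L' :=
  @Affine.Point.map K K L L' _ _ _ _ (E K) (Classical.decEq L) (Classical.decEq L') _ _ _ _ _ _ _ φ

variable {K F : Type} [Field K] [Field F] [Algebra K F] {d : ℕ}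

/-- The restriction of `σ` to the subfield `j(F)` of the algebraic closure is `g`. -/
def Restr (j : F →ₐ[K] AlgebraicClosure K) (σ : AbsGal K) (g : Gal(F/K)) : Prop :=
  ∀ x, σ (j x) = j (g x)

/-- The group `A(L) = E(L)^d` of the points of `A = E ⊗ R` over a field `L` containing the algebraic
closure of `K`. -/
abbrev PtA (K L : Type) [Field K] [Field L] [Algebra K L] (d : ℕ) : Type := Fin d → Pt K L

/-- `X` is (the set of the points over the algebraic closure of) a torsor under `A = E ⊗ R` over `K`.
The group `A(K̄) = E(K̄)^d` acts simply transitively on `X` (this is `AddTorsor`), and the absolute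
Galois group of `K` acts on `X`, such that the stabilizers are open and `σ(a + x) = σ(a) + σ(x)`, where
`σ(a)_i = ∑ R(g)_ik σ(a_k)` and `g` is the restriction of `σ` to `F`. -/
structure IsTorsor (j : F →ₐ[K] AlgebraicClosure K) (R : Gal(F/K) →* Matrix (Fin d) (Fin d) ℤ)
    (X : Type) [AddTorsor (PtA K (AlgebraicClosure K) d) X] [MulAction (AbsGal K) X] : Prop where
  open_stabilizer : ∀ x : X, IsOpen {σ : AbsGal K | σ • x = x}
  smul_vadd : ∀ σ g, Restr j σ g → ∀ (a : PtA K (AlgebraicClosure K) d) (x : X),
    σ • (a +ᵥ x) = (fun i => ∑ k, R g i k • act σ.toAlgHom (a k) : PtA K (AlgebraicClosure K) d) +ᵥ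
      σ • x

/-- The degree of the closed point of `X` which is given by the point `x` over the algebraic closure:
the number of the conjugates of `x`. -/
noncomputable def degree {X : Type} [MulAction (AbsGal K) X] (x : X) : ℕ :=
  (MulAction.orbit (AbsGal K) x).ncard

/-- The set of the `Q' ∈ A(K̄_v)` such that the point `Q' + x` of `X` is conjugate over `K_v` to the
point `Q + x`. -/
def localConjugates (j : F →ₐ[K] AlgebraicClosure K) (R : Gal(F/K) →* Matrix (Fin d) (Fin d) ℤ)
    {X : Type} [AddTorsor (PtA K (AlgebraicClosure K) d) X] [MulAction (AbsGal K) X]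
    {Kv : Type} [Field Kv] [Algebra K Kv] (ι : AlgebraicClosure K →ₐ[K] AlgebraicClosure Kv) (x : X)
    (Q : PtA K (AlgebraicClosure Kv) d) : Set (PtA K (AlgebraicClosure Kv) d) :=
  {Q' | ∃ (τ : AbsGal Kv) (σ : AbsGal K) (g : Gal(F/K)), (∀ y, τ (ι y) = ι (σ y)) ∧ Restr j σ g ∧
    ∀ i, Q' i = ∑ k, R g i k • act (τ.toAlgHom.restrictScalars K) (Q k) + act ι ((σ • x -ᵥ x) i)}

/-- `X` has a zero-cycle of degree one over the extension `Kv` of `K`: there are closed points of
`X` over `Kv`, given by points `Q₁ + x, …, Q_t + x` over the algebraic closure of `Kv`, and integers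
`n₁, …, n_t`, such that the sum of `n_i` times the number of the conjugates of `Q_i + x` is `1`. -/
def HasLocalZeroCycle (j : F →ₐ[K] AlgebraicClosure K) (R : Gal(F/K) →* Matrix (Fin d) (Fin d) ℤ)
    (X : Type) [AddTorsor (PtA K (AlgebraicClosure K) d) X] [MulAction (AbsGal K) X]
    (Kv : Type) [Field Kv] [Algebra K Kv] : Prop :=
  ∀ ι : AlgebraicClosure K →ₐ[K] AlgebraicClosure Kv,
    ∃ (x : X) (t : ℕ) (Q : Fin t → PtA K (AlgebraicClosure Kv) d) (n : Fin t → ℤ),
      ∑ i, n i * ((localConjugates j R ι x (Q i)).ncard : ℤ) = 1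

end defs

/-- **The index of the torsors under `E ⊗ R`.**  Let `F/K` be Galois, where `F` is a 2-extension (with
the stated conditions on the ramification) of a subfield `M` of a Galois 2-extension `L` of
`C = ℚ(√-3)` or `C = ℚ(ζ₉)`, and let `R` be a representation of `Gal(F/K)` on `ℤ^d`.  Let `X` be a torsor
under `E ⊗ R` over `K` which has zero-cycles of degree one over all the completions of `K`.  Then `X` has
a closed point of odd degree; and if `X` has a zero-cycle whose degree is a power of two, then `X` has a
rational point. -/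
theorem result (m : ℕ) (hm : m = 3 ∨ m = 9) (C L M F N : Type) [Field C] [NumberField C]
    [IsCyclotomicExtension {m} ℚ C] [Field L] [NumberField L] [Algebra C L] [IsGalois C L]
    [Field M] [NumberField M] [Algebra M L] [Field F] [NumberField F] [Field N] [NumberField N]
    [Algebra M F] [Algebra F N] [Algebra M N] [IsScalarTower M F N] [IsGalois M N]
    (hL : ∃ n : ℕ, Module.finrank C L = 2 ^ n) (hram : GoodRam C L)
    (hN : ∃ n : ℕ, Module.finrank M N = 2 ^ n) (h2 : ¬ (2 : ℤ) ∣ discr F) (hbad : ¬ BadPrime M F)
    (K : Type) [Field K] [NumberField K] [Algebra K F] [IsGalois K F]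
    (j : F →ₐ[K] AlgebraicClosure K) (d : ℕ) (R : Gal(F/K) →* Matrix (Fin d) (Fin d) ℤ)
    (X : Type) [AddTorsor (PtA K (AlgebraicClosure K) d) X] [MulAction (AbsGal K) X]
    (hX : IsTorsor j R X)
    (hfin : ∀ v : HeightOneSpectrum (𝓞 K), HasLocalZeroCycle j R X (v.adicCompletion K))
    (hinf : ∀ v : InfinitePlace K, HasLocalZeroCycle j R X v.Completion) :
    (∃ x : X, Odd (degree (K := K) x)) ∧
    ((∃ (t : ℕ) (x : Fin t → X) (n : Fin t → ℤ) (a : ℕ),
        ∑ i, n i * (degree (K := K) (x i) : ℤ) = 2 ^ a) →
      ∃ x : X, ∀ σ : AbsGal K, σ • x = x) := by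
  have hU : Pool.Agent.K7.H56.Unr2 F := Pool.Agent.K7.H56.U.unr2_of h2
  have hGL : Pool.Agent.K7.H56.P.Gd C L := Pool.Agent.K7.H56.P.gd_of fun w hw h3 α hα => by
    obtain ⟨σ, hσ, hin⟩ := hw
    refine hram w σ (fun h => h3 ?_) hin hσ α hα
    show algebraMap (𝓞 C) (𝓞 L) 3 ∈ w.asIdeal
    rw [map_ofNat]
    exact h
  have hB : Pool.Agent.K7.H56.U2.Bs M := by
    rcases hm with rfl | rfl
    · exact Pool.Agent.K7.H56.U2.bs_three (C := C) (L := L) hL hGL
    · exact Pool.Agent.K7.H56.U2.bs_nine (C := C) (L := L) hL hGL
  obtain ⟨R', h3F⟩ := Pool.Agent.K7.H56.U2.rel_all5 (G := N) Pool.Agent.K7.H56.U2.ng_up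
    Pool.Agent.K7.H56.U2.lc3_true hN hU hB.ng
  have hGd : Pool.Agent.K7.H56.P.Gd M F := (not_iff_comm.1 Pool.Agent.K7.H56.U.bad_iff).1 hbad
  have hS : Pool.Agent.K7.H56.U.S2 F := (R'.gs hGd).2 hB.sel
  have hTr : Pool.Agent.H76.BKT.Tr F :=
    Pool.Agent.H76.BKT.tr_of_s2 (Pool.Agent.K7.H56.U.no_cube hU) hS
  have hloc : ∀ (Kv : Type) [Field Kv] [Algebra K Kv], HasLocalZeroCycle j R X Kv →
      ∀ (ι : AlgebraicClosure K →ₐ[K] AlgebraicClosure Kv),
      ∃ (x : X) (Q : PtA K (AlgebraicClosure Kv) d),
        ∀ (τ : AbsGal Kv) (σ : AbsGal K), (∀ y, τ (ι y) = ι (σ y)) → ∀ g, Restr j σ g → ∀ i,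
          act ι ((σ • x -ᵥ x) i) =
            Q i - ∑ k, R g i k • act (τ.toAlgHom.restrictScalars K) (Q k) := by
    intro Kv _ _ h ι
    obtain ⟨x, t, Q, n, hn⟩ := h ι
    exact ⟨x, Pool.Agent.H76.BKT.loc_point (j := j) (R := R) (X := X) hX.smul_vadd ι x Q n hn⟩
  obtain ⟨h1, h3⟩ := Pool.Agent.H76.BKT.torsor_main (j := j) (R := R) (X := X) hTr hX.smul_vadd
    hX.open_stabilizer (fun v => hloc _ (hfin v)) (fun v => hloc _ (hinf v))
  have hdeg : ∀ x : X, degree (K := K) x = (MulAction.stabilizer (AbsGal K) x).index := fun x =>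
    (MulAction.index_stabilizer (AbsGal K) x).symm
  refine ⟨?_, ?_⟩
  · obtain ⟨x, hx⟩ := h1
    exact ⟨x, by rw [hdeg]; exact hx⟩
  · rintro ⟨t, x, n, a, ha⟩
    refine h3 t x n a ?_
    simp only [hdeg] at ha
    exact ha

end Pool.Agent.Results.MP_1ad228_nt.TorsorsOddDegree
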