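import Pool.Agent.K7.H56.Z.D
import Pool.Agent.K7.H56.U2.H
import Pool.Agent.K7.H90.Spr

/-!
# Zero-cycles of degree one on the products of 2-coverings of the curves that become isomorphic to
# `y² + y = x³`, over infinitely many number fields

A curve of genus one `y² = G(X, Z)`, where `G` is a binary quartic form over the number field `k`, with
the invariants `I = 0` and `J ≠ 0`, is a 2-covering of an elliptic curve `E/k` with `j(E) = 0`.  If
`J = -432 μ⁶`, where `μ` is an element of the larger field `K`, then `E` becomes isomorphic to
`y² + y = x³` over `K`.  Let `X` be a product of `r` such curves (a torsor under a product of elliptic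
curves), where `r` is arbitrary.  We prove for the following number fields `K`, and for all subfields `k` of
`K` such that `K/k` is Galois: if `X` has zero-cycles of degree one over all the completions of `k`, then
`X` has a rational point over `k`; in particular `X` has a zero-cycle of degree one, and there is no
Brauer-Manin obstruction.

The fields `K`.  Let `C` be `ℚ(√-3)` or `ℚ(ζ₉)`, let `L/C` be a Galois extension of 2-power degree in
which, above the primes other than three, only primes ramify modulo which two is not a cube (`GoodRam`), and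
let `M` be any subfield of `L` (for example `M = ℚ`, or a field `M` of degree four with Galois group `A₄`).
Then `K` is any field of odd discriminant, between `M` and a Galois extension of `M` of 2-power degree,
such that no prime of `M`, not above three, modulo which two is a cube, is ramified in `K`.  For example,
`K` is any tower of quadratic extensions of `ℚ` of odd discriminant in which no prime number
`p ≡ 2 mod 3` and no prime number `p = x² + 27 y²` ramifies.  The field `k` can be `K`, and then the
curves are the 2-coverings `y² = G` of `y² + y = x³` over `K`; if `K = k(√d)` then they are the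
2-coverings `y² = G` of the curve `y² + y = x³` and of its quadratic twist by `d`.  (These are facts of the
classical theory of 2-descent, which is not used here.)

The finiteness of the Tate-Shafarevich groups of these elliptic curves over these fields is known only if
`K(√-3)` is abelian over `ℚ(√-3)` (Rubin); in general only the 2-primary part is known, which is trivial.
So for the other fields the theorem does not follow from the known case of Question 1 (curves whose Jacobian
has a finite Tate-Shafarevich group).

Proof.  The 2-Selmer group of `y² + y = x³` over `K` is trivial (`FormulaModTwoTowers`).  By Springer's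
theorem for the curves `y² = G` (helper90) there are points over all the completions of `k`, and hence of
`K`.  The class of the curve `y² = G` over `K` is given by the element
`ζ(ε) = b² - (8/3) a c - 4 a μ² ε` of the cubic algebra, `ε³ = -16`; a point over a completion and the
covariants of `G` show that it is locally in the image of the group of points.  So `ζ` is a square, and the
square root gives a zero of the form `G` in `K`.  It is in `k`, because two different zeros in `K` would
give a cube root of two.
-/

set_option autoImplicit false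

open NumberField IsDedekindDomain

namespace Pool.Agent.Results.MP_1ad228_nt.TwoCoveringProducts

/-- The binary quartic form `a X⁴ + b X³ Z + c X² Z² + d X Z³ + e Z⁴` over `F`. -/
structure Quartic (F : Type) where
  /-- the coefficient of `X⁴` -/
  a : F
  /-- the coefficient of `X³ Z` -/
  b : F
  /-- the coefficient of `X² Z²` -/
  c : F
  /-- the coefficient of `X Z³` -/
  d : F
  /-- the coefficient of `Z⁴` -/
  e : F

/-- The form over an extension of the field. -/
def Quartic.map {F F' : Type} [Field F] [Field F'] (f : F →+* F') (G : Quartic F) : Quartic F' :=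
  ⟨f G.a, f G.b, f G.c, f G.d, f G.e⟩

/-- The value `G(X, Z)`. -/
def Quartic.val {F : Type} [Field F] (G : Quartic F) (X Z : F) : F :=
  G.a * X ^ 4 + G.b * X ^ 3 * Z + G.c * X ^ 2 * Z ^ 2 + G.d * X * Z ^ 3 + G.e * Z ^ 4

/-- The invariant `I` of the form. -/
def Quartic.I {F : Type} [Field F] (G : Quartic F) : F :=
  12 * G.a * G.e - 3 * G.b * G.d + G.c ^ 2

/-- The invariant `J` of the form. -/
def Quartic.J {F : Type} [Field F] (G : Quartic F) : F :=
  72 * G.a * G.c * G.e + 9 * G.b * G.c * G.d - 27 * G.a * G.d ^ 2 - 27 * G.e * G.b ^ 2 - 2 * G.c ^ 3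

/-- The curve `y² = G(X, Z)` over `k` is a 2-covering of an elliptic curve which becomes isomorphic to
`y² + y = x³` over `K`: the invariants of the form are `I = 0` and `J = -432 μ⁶`, where `μ ∈ K`,
`μ ≠ 0`. -/
def IsTwoCovering (k K : Type) [Field k] [Field K] [Algebra k K] (G : Quartic k) : Prop :=
  G.I = 0 ∧ ∃ μ : K, μ ≠ 0 ∧ algebraMap k K G.J = -432 * μ ^ 6

/-- The product of the curves `y² = G_j(X, Z)` has a point over the field `F`. -/
def HasPoint {r : ℕ} {F : Type} [Field F] (G : Fin r → Quartic F) : Prop :=
  ∀ j, ∃ X Z y : F, (X ≠ 0 ∨ Z ≠ 0) ∧ y ^ 2 = (G j).val X Z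

/-- The product of the curves `y² = G_j(X, Z)` has a zero-cycle of degree one over the field `F`:
there are finitely many finite extensions `L i` of `F` over which it has a point, and integers
`m i` with `∑ m i * [L i : F] = 1`. (A point over `L i` is a closed point together with an embedding
of its residue field in `L i`, so this says that the degrees of the closed points have greatest
common divisor one.) -/
def HasZeroCycleOfDegreeOne {r : ℕ} {F : Type} [Field F] (G : Fin r → Quartic F) : Prop :=
  ∃ (t : ℕ) (L : Fin t → Type) (_ : ∀ i, Field (L i)) (_ : ∀ i, Algebra F (L i)) (m : Fin t → ℤ),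
    (∀ i, FiniteDimensional F (L i)) ∧
    (∀ i, HasPoint fun j => (G j).map (algebraMap F (L i))) ∧
    ∑ i, m i * (Module.finrank F (L i) : ℤ) = 1

/-- Above the prime numbers other than three, only primes modulo which `2` is not a cube ramify in
`L/C`: if `σ ≠ 1` lies in the inertia group of the prime `w` of `L`, and `w` does not divide three, then
`2` is not a cube modulo the prime of `C` below `w`. -/
def GoodRam (C L : Type) [Field C] [NumberField C] [Field L] [NumberField L] [Algebra C L] : Prop :=
  ∀ (w : HeightOneSpectrum (𝓞 L)) (σ : Gal(L/C)), (3 : 𝓞 L) ∉ w.asIdeal →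
    (∀ x : 𝓞 L, σ • x - x ∈ w.asIdeal) → σ ≠ 1 → ∀ α : 𝓞 C, α ^ 3 - 2 ∉ w.asIdeal.under (𝓞 C)

/-- A prime `w` of `N`, not above three, modulo which two is a cube, is ramified in `K`: there is a
prime `w'` of `K` with `w 𝓞_K ⊆ w'²`. -/
def BadPrime (N K : Type) [Field N] [NumberField N] [Field K] [NumberField K] [Algebra N K] : Prop :=
  ∃ (w : HeightOneSpectrum (𝓞 N)) (w' : HeightOneSpectrum (𝓞 K)),
    (3 : 𝓞 N) ∉ w.asIdeal ∧ (∃ x : 𝓞 N, x ^ 3 - 2 ∈ w.asIdeal) ∧
    w.asIdeal.map (algebraMap (𝓞 N) (𝓞 K)) ≤ w'.asIdeal ^ 2

section proof

/-- Springer's theorem for the curves `y² = G` -/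
lemma point_of_zc {r : ℕ} {F : Type} [Field F] {G : Fin r → Quartic F}
    (h : HasZeroCycleOfDegreeOne G) : HasPoint G := by
  obtain ⟨t, L, i1, i2, m, hfd, hpt, hsum⟩ := h
  intro j
  haveI := hfd
  exact Pool.Agent.K7.H90.Spr.zc4 (F := F) (G j).a (G j).b (G j).c (G j).d (G j).e Finset.univ L m hsum
    fun i _ => hpt i j

end proof

/-- **Zero-cycles of degree one on the products of 2-coverings** of the elliptic curves over `k` that
become isomorphic to `y² + y = x³` over the Galois extension `K` of `k`, where `K` is a 2-extension of
a subfield `M` of a Galois 2-extension `L` of `C = ℚ(√-3)` or `C = ℚ(ζ₉)`. -/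
theorem result (m : ℕ) (hm : m = 3 ∨ m = 9) (C L M K N : Type) [Field C] [NumberField C]
    [IsCyclotomicExtension {m} ℚ C] [Field L] [NumberField L] [Algebra C L] [IsGalois C L]
    [Field M] [NumberField M] [Algebra M L] [Field K] [NumberField K] [Field N] [NumberField N]
    [Algebra M K] [Algebra K N] [Algebra M N] [IsScalarTower M K N] [IsGalois M N]
    (hL : ∃ n : ℕ, Module.finrank C L = 2 ^ n) (hram : GoodRam C L)
    (hN : ∃ n : ℕ, Module.finrank M N = 2 ^ n) (h2 : ¬ (2 : ℤ) ∣ discr K) (hbad : ¬ BadPrime M K)
    (k : Type) [Field k] [NumberField k] [Algebra k K] [IsGalois k K]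
    (r : ℕ) (G : Fin r → Quartic k) (hG : ∀ j, IsTwoCovering k K (G j))
    (hfin : ∀ v : HeightOneSpectrum (𝓞 k),
      HasZeroCycleOfDegreeOne fun j => (G j).map (algebraMap k (v.adicCompletion k)))
    (hinf : ∀ v : InfinitePlace k,
      HasZeroCycleOfDegreeOne fun j => (G j).map (algebraMap k v.Completion)) :
    HasPoint G := by
  have hU : Pool.Agent.K7.H56.Unr2 K := Pool.Agent.K7.H56.U.unr2_of h2
  have hGL : Pool.Agent.K7.H56.P.Gd C L := Pool.Agent.K7.H56.P.gd_of fun w hw h3 α hα => by
    obtain ⟨σ, hσ, hin⟩ := hw
    refine hram w σ (fun h => h3 ?_) hin hσ α hα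
    show algebraMap (𝓞 C) (𝓞 L) 3 ∈ w.asIdeal
    rw [map_ofNat]
    exact h
  have hB : Pool.Agent.K7.H56.U2.Bs M := by
    rcases hm with rfl | rfl
    · exact Pool.Agent.K7.H56.U2.bs_three (C := C) (L := L) hL hGL
    · exact Pool.Agent.K7.H56.U2.bs_nine (C := C) (L := L) hL hGL
  obtain ⟨R, h3K⟩ := Pool.Agent.K7.H56.U2.rel_all5 (G := N) Pool.Agent.K7.H56.U2.ng_up
    Pool.Agent.K7.H56.U2.lc3_true hN hU hB.ng
  have hGd : Pool.Agent.K7.H56.P.Gd M K := (not_iff_comm.1 Pool.Agent.K7.H56.U.bad_iff).1 hbad
  have hS : Pool.Agent.K7.H56.U.S2 K := (R.gs hGd).2 hB.sel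
  intro j
  obtain ⟨hI, μ, hμ, hJ⟩ := hG j
  obtain ⟨X, Z, hXZ, h⟩ := Pool.Agent.K7.H56.Z.zero_of_els hS (Pool.Agent.K7.H56.U.no_cube hU)
    (a := (G j).a) (b := (G j).b) (c := (G j).c) (d := (G j).d) (e := (G j).e) (m := μ) hI hJ hμ
    (fun v => point_of_zc (hfin v) j) (fun v => point_of_zc (hinf v) j)
  refine ⟨X, Z, 0, hXZ, ?_⟩
  show (0 : k) ^ 2 = _
  rw [show (G j).val X Z = 0 from h]
  ring

end Pool.Agent.Results.MP_1ad228_nt.TwoCoveringProducts
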